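import Pool.Agent.W133.DQ.StC

set_option autoImplicit false

open scoped ContDiff
open Set Filter Topology

namespace Pool.Agent.W462.DQ

open Pool.Agent.W133.DQ

theorem st0 (hSER : S_SER) : S_ST0 := by
  intro f hf hf0 hDf
  let E := Fin 0 → ℝ
  let F : E × P2 → E × P2 := fun q => (q.1, f q.2)
  let a : E × P2 → P2 := fun q => (2 : ℝ) • f q.2 - q.2
  have hf' : HasFDerivAt f ((1 / 2 : ℝ) • ContinuousLinearMap.id ℝ P2) 0 := by
    rw [← hDf]
    exact (hf.differentiable (by simp)).differentiableAt.hasFDerivAt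
  have hF : ContDiff ℝ ∞ F := contDiff_fst.prodMk (hf.comp contDiff_snd)
  have ha : ContDiff ℝ ∞ a := by
    have h1 : ContDiff ℝ ∞ (fun q : E × P2 => f q.2) := hf.comp contDiff_snd
    exact (h1.const_smul (2 : ℝ)).sub contDiff_snd
  have hfs : ∀ x : E, HasFDerivAt (fun q : E × P2 => f q.2)
      (((1 / 2 : ℝ) • ContinuousLinearMap.id ℝ P2).comp (ContinuousLinearMap.snd ℝ E P2))
      (x, (0 : P2)) := fun x => HasFDerivAt.comp (x, (0 : P2)) (g := f) hf' hasFDerivAt_snd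
  have hDF : ∀ x : E, HasFDerivAt F ((ContinuousLinearMap.fst ℝ E P2).prod
      (((1 / 2 : ℝ) • ContinuousLinearMap.id ℝ P2).comp (ContinuousLinearMap.snd ℝ E P2)))
      (x, (0 : P2)) := fun x => hasFDerivAt_fst.prodMk (hfs x)
  have hDa : ∀ x : E, HasFDerivAt a ((2 : ℝ) •
      (((1 / 2 : ℝ) • ContinuousLinearMap.id ℝ P2).comp (ContinuousLinearMap.snd ℝ E P2)) -
      ContinuousLinearMap.snd ℝ E P2) (x, (0 : P2)) := fun x =>
    ((hfs x).const_smul (2 : ℝ)).sub hasFDerivAt_snd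
  obtain ⟨U, hU, hxU, hFU, hsum, hS, hest⟩ := hSER E P2 P2 F a (1 / 2) (1 / 2) 2 hF ha
    (by norm_num) (by norm_num) (by norm_num) (Or.inr rfl) (by norm_num)
    (fun x => by simp only [F, hf0])
    (fun x v => by
      rw [(hDF x).fderiv]
      simp)
    (fun x => by simp only [a, hf0, smul_zero, sub_zero])
    (fun _ x v => by
      rw [(hDa x).fderiv]
      simp [smul_smul])
  set S : E × P2 → P2 := fun q => ∑' n : ℕ, ((1 / 2 : ℝ)⁻¹) ^ n • a (F^[n] q) with hSdef
  obtain ⟨η₁, C, hη₁, hC⟩ := hest 0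
  -- the functional equation
  have hfe : ∀ q ∈ U, S q = a q + (2 : ℝ) • S (F q) := by
    intro q hq
    have h1 := (hsum q hq).tsum_eq_zero_add
    simp only [hSdef]
    rw [h1]
    congr 1
    · simp
    · rw [← (hsum (F q) (hFU q hq)).tsum_const_smul]
      refine tsum_congr fun n => ?_
      rw [Function.iterate_succ_apply, smul_smul, pow_succ]
      congr 1
      ring
  let h : P2 → P2 := fun p => p + S (0, p)
  have hnorm : ∀ p : P2, ‖((0 : E), p) - (0, 0)‖ = ‖p‖ := by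
    intro p
    rw [Prod.mk_sub_mk, sub_zero, sub_zero, Prod.norm_mk, norm_zero]
    exact max_eq_right (norm_nonneg _)
  have hCb : ∀ p : P2, ‖p‖ < η₁ → ‖S (0, p)‖ ≤ C * ‖p‖ ^ 2 := by
    intro p hp
    have := hC (0, p) (by rw [hnorm]; exact hp)
    exact this
  have hS0 : S (0, 0) = 0 := by
    have := hCb 0 (by rw [norm_zero]; exact hη₁)
    rw [norm_zero] at this
    rw [← norm_le_zero_iff]
    simpa using this
  have hDS : HasFDerivAt (fun p : P2 => S (0, p)) (0 : P2 →L[ℝ] P2) 0 := by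
    refine Asymptotics.IsBigO.hasFDerivAt (n := 2) ?_ (by norm_num)
    refine Asymptotics.IsBigO.of_bound C ?_
    filter_upwards [Metric.ball_mem_nhds (0 : P2) hη₁] with p hp
    rw [mem_ball_zero_iff] at hp
    rw [sub_zero, Real.norm_eq_abs, abs_of_nonneg (by positivity)]
    exact hCb p hp
  have hDh : HasFDerivAt h (ContinuousLinearMap.id ℝ P2) 0 := by
    have h1 := (hasFDerivAt_id (𝕜 := ℝ) (0 : P2)).add hDS
    rw [add_zero] at h1
    exact h1
  -- the domain
  have hcont : Continuous (fun p : P2 => ((0 : E), p)) := by fun_prop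
  have hUn : ∀ᶠ p : P2 in 𝓝 0, ((0 : E), p) ∈ U :=
    hcont.continuousAt.eventually (hU.mem_nhds (hxU 0))
  have hfn : ∀ᶠ p : P2 in 𝓝 0, ‖f p‖ ≤ ‖p‖ := by
    have h1 := hf'.isLittleO.def (by norm_num : (0 : ℝ) < 1 / 2)
    filter_upwards [h1] with p hp
    rw [hf0, sub_zero, sub_zero] at hp
    have h2 : ‖((1 / 2 : ℝ) • ContinuousLinearMap.id ℝ P2) p‖ = 1 / 2 * ‖p‖ := by
      simp [norm_smul]
    have h3 : f p = (f p - ((1 / 2 : ℝ) • ContinuousLinearMap.id ℝ P2) p) +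
      ((1 / 2 : ℝ) • ContinuousLinearMap.id ℝ P2) p := by simp
    calc ‖f p‖ ≤ ‖f p - ((1 / 2 : ℝ) • ContinuousLinearMap.id ℝ P2) p‖ +
        ‖((1 / 2 : ℝ) • ContinuousLinearMap.id ℝ P2) p‖ := by
          conv_lhs => rw [h3]
          exact norm_add_le _ _
      _ ≤ 1 / 2 * ‖p‖ + 1 / 2 * ‖p‖ := by rw [h2]; exact add_le_add hp le_rfl
      _ = ‖p‖ := by ring
  obtain ⟨η, hη, hball⟩ := Metric.eventually_nhds_iff_ball.1 (hUn.and hfn)
  refine ⟨η, h, hη, ?_, ?_, hDh.fderiv, ?_⟩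
  · refine contDiffOn_id.add ?_
    have h1 : ContDiffOn ℝ ∞ (fun p : P2 => ((0 : E), p)) (Metric.ball 0 η) :=
      (contDiff_const.prodMk contDiff_id).contDiffOn
    exact hS.comp h1 fun p hp => (hball p hp).1
  · simp only [h, hS0, add_zero]
  · intro p hp
    have h1 := hball p (by rw [mem_ball_zero_iff]; exact hp)
    refine ⟨lt_of_le_of_lt h1.2 hp, ?_⟩
    have h2 := hfe (0, p) h1.1
    have h3 : F ((0 : E), p) = (0, f p) := rfl
    have h4 : a ((0 : E), p) = (2 : ℝ) • f p - p := rfl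
    rw [h3, h4] at h2
    simp only [h]
    rw [h2]
    module

end Pool.Agent.W462.DQ
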