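import Pool.Agent.W133.DQ.StB

set_option autoImplicit false

open scoped ContDiff
open Set Filter Topology

namespace Pool.Agent.W462.DQ

open Pool.Agent.W133.DQ

theorem isG_unique {f g : Equiv.Perm P2} {u : P2 → ℝ} (hf : IsG f u) (hg : IsG g u) : f = g :=
  Equiv.ext fun p => by rw [hf p, hg p]

theorem isG_mul {f g : Equiv.Perm P2} {u v : P2 → ℝ} (hf : IsG f u) (hg : IsG g v) :
    IsG (f * g) (Pool.Agent.W133.DQ.star u v) := by
  intro p
  rw [Equiv.Perm.mul_apply, hg p, hf]
  simp only [Pool.Agent.W133.DQ.star]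
  refine Prod.ext ?_ rfl
  simp only
  ring

theorem isG_disp {f : Equiv.Perm P2} {u : P2 → ℝ} (hf : IsG f u) (p : P2) :
    u p = (f p).1 - p.1 := by
  rw [hf p]
  simp only
  ring

theorem hom_one {L : Equiv.Perm P2 → ℝ} (hL : HomOn DC L) : L 1 = 0 := by
  have h := hL 1 DC.one_mem 1 DC.one_mem
  rw [mul_one] at h
  linarith

/-- the product of a chain -/
theorem chain_prod {L : Equiv.Perm P2 → ℝ} (hL : HomOn DC L) (w : ℕ → P2 → ℝ)
    (G : ℕ → Equiv.Perm P2) (hG : ∀ i, G i ∈ LP) (hw : ∀ i, IsG (G i) (w i)) (m : ℕ) :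
    ∃ f ∈ LP, IsG f (chain w m) ∧ L f = ∑ i ∈ Finset.range m, L (G i) := by
  induction m with
  | zero =>
    refine ⟨1, LP.one_mem, ?_, ?_⟩
    · intro p
      simp [chain]
    · rw [Finset.sum_range_zero, hom_one hL]
  | succ m ih =>
    obtain ⟨f, hf, hfw, hLf⟩ := ih
    refine ⟨G m * f, LP.mul_mem (hG m) hf, ?_, ?_⟩
    · exact isG_mul (hw m) hfw
    · rw [Finset.sum_range_succ, hL _ (LP_le_DC (hG m)) _ (LP_le_DC hf), hLf]
      ring

/-- chains of functions with disjoint supports in the `y`-direction -/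
theorem chain_one (w : ℕ → P2 → ℝ) (p : P2) (i₀ : ℕ)
    (h : ∀ i, i ≠ i₀ → ∀ x : ℝ, w i (x, p.2) = 0) (m : ℕ) :
    chain w m p = if i₀ < m then w i₀ p else 0 := by
  induction m with
  | zero => simp [chain]
  | succ m ih =>
    simp only [chain, Pool.Agent.W133.DQ.star]
    rw [ih]
    by_cases hm : m = i₀
    · subst hm
      rw [if_neg (lt_irrefl _), if_pos (Nat.lt_succ_self _), add_zero, zero_add]
    · rw [h m hm, add_zero]
      by_cases h1 : i₀ < m
      · rw [if_pos h1, if_pos (by omega)]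
      · rw [if_neg h1, if_neg (by omega)]

/-- Cutting a leaf preserving diffeomorphism. -/
theorem cut {f : Equiv.Perm P2} (hf : f ∈ LP) {u : P2 → ℝ} (hu : IsG f u) (η : ℝ → ℝ)
    (hη : ContDiff ℝ ∞ η) (h : ∀ y, η y = 1 ∨ η y = 0 ∨ ∀ x, u (x, y) = 0) :
    ∃ g ∈ LP, IsG g (fun p => η p.2 * u p) := by
  have h2 : ∀ p, (f⁻¹ p).2 = p.2 := (LP.inv_mem hf).2
  let v : P2 → ℝ := fun p => (f⁻¹ p).1 - p.1
  have hu' : ∀ p, u p = (f p).1 - p.1 := isG_disp hu
  have hv0 : ∀ y, (∀ x, u (x, y) = 0) → ∀ x, v (x, y) = 0 := by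
    intro y hy x
    have h3 : f (x, y) = (x, y) := by rw [hu, hy x, add_zero]
    have h4 : f⁻¹ (x, y) = (x, y) := by rw [Equiv.Perm.inv_eq_iff_eq, h3]
    simp only [v, h4, sub_self]
  have e1 : ∀ p : P2, f p = (p.1 + u p, p.2) := hu
  have e2 : ∀ p : P2, f⁻¹ p = (p.1 + v p, p.2) := fun p => by
    refine Prod.ext ?_ (h2 p)
    simp only [v]
    ring
  let g : Equiv.Perm P2 :=
    { toFun := fun p => (p.1 + η p.2 * u p, p.2)
      invFun := fun p => (p.1 + η p.2 * v p, p.2)
      left_inv := by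
        intro p
        rcases h p.2 with h1 | h1 | h1
        · simp only [h1, one_mul]
          rw [← e1 p]
          have h3 := e2 (f p)
          rw [show f⁻¹ (f p) = p from f.symm_apply_apply p] at h3
          rw [show p.2 = (f p).2 from (hf.2 p).symm]
          conv_lhs => rw [show p.1 + u p = (f p).1 by rw [e1 p]]
          exact h3.symm
        · simp only [h1, zero_mul, add_zero]
        · simp only
          have h3 : u p = 0 := h1 p.1
          rw [h3, mul_zero, add_zero, hv0 p.2 h1 p.1, mul_zero, add_zero]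
      right_inv := by
        intro p
        rcases h p.2 with h1 | h1 | h1
        · simp only [h1, one_mul]
          rw [← e2 p]
          have h3 := e1 (f⁻¹ p)
          rw [show f (f⁻¹ p) = p from f.apply_symm_apply p] at h3
          rw [show p.2 = (f⁻¹ p).2 from (h2 p).symm]
          conv_lhs => rw [show p.1 + v p = (f⁻¹ p).1 by rw [e2 p]]
          exact h3.symm
        · simp only [h1, zero_mul, add_zero]
        · simp only
          have h3 : v p = 0 := hv0 p.2 h1 p.1
          rw [h3, mul_zero, add_zero, h1 p.1, mul_zero, add_zero] }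
  have hgI : ∀ p, g p = (p.1 + η p.2 * u p, p.2) := fun p => rfl
  have hgI' : ∀ p, g⁻¹ p = (p.1 + η p.2 * v p, p.2) := fun p => rfl
  have hus : ContDiff ℝ ∞ u := by
    have : u = fun p => (f p).1 - p.1 := funext hu'
    rw [this]
    exact (contDiff_fst.comp hf.1.1.1).sub contDiff_fst
  have hvs : ContDiff ℝ ∞ v := (contDiff_fst.comp hf.1.1.2).sub contDiff_fst
  obtain ⟨R, hR⟩ := hf.1.2
  refine ⟨g, ⟨⟨⟨?_, ?_⟩, R, ?_⟩, fun p => rfl⟩, fun p => rfl⟩
  · have : (fun p => g p) = fun p : P2 => (p.1 + η p.2 * u p, p.2) := funext hgI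
    rw [this]
    exact (contDiff_fst.add ((hη.comp contDiff_snd).mul hus)).prodMk contDiff_snd
  · have : (fun p => g⁻¹ p) = fun p : P2 => (p.1 + η p.2 * v p, p.2) := funext hgI'
    rw [this]
    exact (contDiff_fst.add ((hη.comp contDiff_snd).mul hvs)).prodMk contDiff_snd
  · intro p hp
    rw [hgI, hu' p, hR p hp, sub_self, mul_zero, add_zero]

/-- Conjugation by a vertical translation. -/
theorem conj_tr {f : Equiv.Perm P2} {u : P2 → ℝ} (hu : IsG f u) (c : ℝ)
    (hD : tr (0, c) * f * (tr (0, c))⁻¹ ∈ DC) :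
    tr (0, c) * f * (tr (0, c))⁻¹ ∈ LP ∧
      IsG (tr (0, c) * f * (tr (0, c))⁻¹) (fun p => u (p.1, p.2 - c)) := by
  have h1 : IsG (tr (0, c) * f * (tr (0, c))⁻¹) (fun p => u (p.1, p.2 - c)) := by
    intro p
    rw [Equiv.Perm.mul_apply, Equiv.Perm.mul_apply, tr_inv_apply, tr_apply, hu]
    have e : p - (0, c) = (p.1, p.2 - c) := by
      refine Prod.ext ?_ rfl
      simp
    rw [e]
    refine Prod.ext ?_ ?_
    · simp
    · simp
  refine ⟨⟨hD, fun p => ?_⟩, h1⟩
  rw [h1 p]

theorem nb_one {u : P2 → ℝ} {b : ℝ} (h : NB 1 u b) (p : P2) : ‖fderiv ℝ u p‖ ≤ b := by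
  have := h p
  rwa [norm_iteratedFDeriv_one] at this

/-- size of a function with compact support in the `x`-direction -/
theorem sup_le {W : P2 → ℝ} (hW : ContDiff ℝ ∞ W) {a : ℝ} (hs : SuppBox 1 a W) {δ : ℝ}
    (h : NB 1 W δ) (p : P2) : |W p| ≤ 2 * δ := by
  have hδ : 0 ≤ δ := (norm_nonneg _).trans (nb_one h p)
  by_cases hp : 1 ≤ |p.1|
  · rw [hs p (Or.inl hp), abs_zero]
    positivity
  · push Not at hp
    have h1 : W (1, p.2) = 0 := hs _ (Or.inl (by simp))
    have h2 := (convex_univ (𝕜 := ℝ) (E := P2)).norm_image_sub_le_of_norm_fderiv_le (𝕜 := ℝ)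
      (f := W) (C := δ) (x := (1, p.2)) (y := p)
      (fun x _ => (hW.differentiable (by simp)).differentiableAt) (fun x _ => nb_one h x)
      (mem_univ _) (mem_univ _)
    rw [h1, sub_zero, Real.norm_eq_abs] at h2
    have h3 : ‖p - (1, p.2)‖ ≤ 2 := by
      rw [Prod.norm_def]
      simp only [Prod.fst_sub, Prod.snd_sub, sub_self, norm_zero]
      rw [Real.norm_eq_abs]
      rw [abs_lt] at hp
      refine max_le ?_ (by norm_num)
      rw [abs_le]
      constructor <;> linarith
    calc |W p| ≤ δ * ‖p - (1, p.2)‖ := h2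
      _ ≤ δ * 2 := mul_le_mul_of_nonneg_left h3 hδ
      _ = 2 * δ := by ring

theorem evp_ok (hCUT : S_CUT) : ∃ δ : ℝ, 0 < δ ∧ ∀ (W : P2 → ℝ) (A : ℕ), ContDiff ℝ ∞ W →
    SuppBox 1 A W → NB 1 W δ → ∀ i, ContDiff ℝ ∞ (evp A W i) ∧ SuppBox 1 1 (evp A W i) ∧
      NB 1 (evp A W i) (1 / 2) := by
  obtain ⟨C, hC⟩ := hCUT.2.2.2 1
  have hthe := hCUT.1 (2 / 5) (4 / 5) (by norm_num) (by norm_num)
  have hC0 : 0 ≤ C := (norm_nonneg _).trans ((hC.2.2.2.2.1) 0)
  have hC1 : ∀ x, |deriv the0 x| ≤ C := by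
    intro x
    have h1 := hC.2.2.2.2.1 x
    rw [norm_iteratedFDeriv_one, ← norm_deriv_eq_norm_fderiv, Real.norm_eq_abs] at h1
    exact h1
  have hts : ContDiff ℝ ∞ the0 := hthe.1
  refine ⟨1 / (2 * (1 + 2 * C)), by positivity, ?_⟩
  intro W A hW hs hNB i
  set δ : ℝ := 1 / (2 * (1 + 2 * C)) with hδ
  have hδ0 : 0 ≤ δ := by positivity
  set c : ℝ := 2 * ((i : ℝ) - A) with hc
  have hV : ContDiff ℝ ∞ (fun p : P2 => W (p.1, p.2 + c)) :=
    hW.comp (contDiff_fst.prodMk (contDiff_snd.add contDiff_const))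
  have hev : evp A W i = fun p => the0 p.2 * W (p.1, p.2 + c) := rfl
  refine ⟨?_, ?_, ?_⟩
  · rw [hev]
    exact (hts.comp contDiff_snd).mul hV
  · intro p hp
    rw [hev]
    rcases hp with hp | hp
    · simp only
      rw [hs (p.1, p.2 + c) (Or.inl hp), mul_zero]
    · simp only
      have : the0 p.2 = 0 := hthe.2.2.2 p.2 (by linarith)
      rw [this, zero_mul]
  · intro p
    rw [norm_iteratedFDeriv_one]
    have h1 : HasFDerivAt (fun p : P2 => the0 p.2)
        (deriv the0 p.2 • ContinuousLinearMap.snd ℝ ℝ ℝ) p :=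
      ((hts.differentiable (by simp)).differentiableAt.hasDerivAt).comp_hasFDerivAt p
        hasFDerivAt_snd
    have h2 : HasFDerivAt (fun p : P2 => W (p.1, p.2 + c)) (fderiv ℝ W (p + (0, c))) p := by
      have h3 : (fun p : P2 => W (p.1, p.2 + c)) = fun p => W (p + (0, c)) := by
        funext q
        congr 1
        refine Prod.ext ?_ rfl
        simp
      rw [h3]
      have h4 : HasFDerivAt W (fderiv ℝ W (p + (0, c))) (p + (0, c)) :=
        (hW.differentiable (by simp)).differentiableAt.hasFDerivAt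
      exact (hasFDerivAt_comp_add_right (0, c)).2 h4
    have h6 := h1.mul h2
    have h7 : fderiv ℝ (evp A W i) p = the0 p.2 • fderiv ℝ W (p + (0, c)) +
        W (p.1, p.2 + c) • (deriv the0 p.2 • ContinuousLinearMap.snd ℝ ℝ ℝ) := h6.fderiv
    rw [h7]
    have h8 : ‖the0 p.2 • fderiv ℝ W (p + (0, c))‖ ≤ 1 * δ := by
      rw [norm_smul, Real.norm_eq_abs]
      refine mul_le_mul ?_ (nb_one hNB _) (norm_nonneg _) zero_le_one
      rw [abs_le]
      have := hthe.2.1 p.2
      constructor
      · exact le_trans (by norm_num) this.1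
      · exact this.2
    have h9 : ‖W (p.1, p.2 + c) • (deriv the0 p.2 • ContinuousLinearMap.snd ℝ ℝ ℝ)‖ ≤
        2 * δ * (C * 1) := by
      rw [norm_smul, norm_smul, Real.norm_eq_abs, Real.norm_eq_abs]
      refine mul_le_mul (sup_le hW hs hNB _) ?_ (by positivity) (by positivity)
      exact mul_le_mul (hC1 _) (ContinuousLinearMap.norm_snd_le ℝ ℝ ℝ) (norm_nonneg _) hC0
    refine (norm_add_le _ _).trans ((add_le_add h8 h9).trans ?_)
    have h10 : 1 * δ + 2 * δ * (C * 1) = δ * (1 + 2 * C) := by ring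
    rw [h10, hδ]
    have : (1 + 2 * C) ≠ 0 := by positivity
    field_simp
    exact le_refl _

theorem the_eq_one (hCUT : S_CUT) (y : ℝ) (j : ℤ) (h : |y - 2 * j| ≤ 2 / 5) : the y = 1 := by
  have hthe := hCUT.1 (2 / 5) (4 / 5) (by norm_num) (by norm_num)
  unfold the the0
  apply hthe.2.2.1
  have h1 := round_le (y / 2) j
  rw [abs_mul]
  have h2 : |y / 2 - j| = |y - 2 * j| / 2 := by
    rw [show y / 2 - j = (y - 2 * j) / 2 by ring, abs_div]
    norm_num
  have h3 : |(2 : ℝ)| = 2 := by norm_num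
  rw [h3]
  linarith

theorem yl (hCONJL : S_CONJL) (hCUT : S_CUT) (hNV : S_NV) (hGU : S_GU) : S_YL := by
  intro L hL A hA
  obtain ⟨δ, hδ, hev⟩ := evp_ok hCUT
  have hthe := hCUT.1 (2 / 5) (4 / 5) (by norm_num) (by norm_num)
  have hkap := hCUT.1 (7 / 10) (9 / 10) (by norm_num) (by norm_num)
  have hA' : (1 : ℝ) ≤ A := by exact_mod_cast hA
  refine ⟨δ, hδ, ?_⟩
  intro W hW hs hNB P hP hPW Q hQ hQW
  set M : ℕ := 2 * A + 1 with hM
  let c : ℕ → ℝ := fun i => 2 * ((i : ℝ) - A)
  -- the even pieces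
  have hE : ∀ i, ∃ f ∈ LP, IsG f (evp A W i) := fun i =>
    hGU _ (hev W A hW hs hNB i).1 ⟨1, 1, (hev W A hW hs hNB i).2.1⟩ (hev W A hW hs hNB i).2.2
  choose E hE hEG using hE
  have hCE := fun i => (hCONJL L hL).1 (E i) (LP_le_DC (hE i)) (0, c i)
  have hE' := fun i => conj_tr (hEG i) (c i) (hCE i).1
  obtain ⟨gE, hgE, hgEG, hLgE⟩ := chain_prod hL (evp A W) E hE hEG M
  obtain ⟨gW, hgW, hgWG, hLgW⟩ := chain_prod hL _ _ (fun i => (hE' i).1) (fun i => (hE' i).2) M
  have hLE : L gW = L gE := by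
    rw [hLgW, hLgE]
    exact Finset.sum_congr rfl fun i _ => (hCE i).2
  -- the chain of the even pieces
  let We : P2 → ℝ := fun q => the q.2 * W q
  have hWe : chain (fun i p => evp A W i (p.1, p.2 - c i)) M = We := by
    funext p
    have hval : ∀ (i : ℕ) (x y : ℝ), evp A W i (x, y - c i) = the0 (y - c i) * W (x, y) := by
      intro i x y
      have : y - c i + 2 * ((i : ℝ) - A) = y := by simp only [c]; ring
      simp only [evp, this]
    by_cases hp : (A : ℝ) ≤ |p.2|
    · have h0 : ∀ x, W (x, p.2) = 0 := fun x => hs (x, p.2) (Or.inr hp)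
      rw [chain_one _ p 0 (fun i _ x => by simp only [hval, h0 x, mul_zero])]
      have h1 : W p = 0 := h0 p.1
      rw [if_pos (by omega)]
      show evp A W 0 (p.1, p.2 - c 0) = We p
      rw [hval, h0, mul_zero]
      simp only [We, h1, mul_zero]
    · push Not at hp
      set j : ℤ := round (p.2 / 2) with hj
      have hj1 : |p.2 / 2 - j| ≤ 1 / 2 := abs_sub_round _
      rw [abs_le] at hj1
      rw [abs_lt] at hp
      have hj2 : (0 : ℤ) ≤ j + A := by
        have : (-1 : ℝ) < (j : ℝ) + A := by linarith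
        have : (-1 : ℤ) < j + A := by exact_mod_cast this
        omega
      have hj3 : j + A ≤ 2 * (A : ℤ) := by
        have : (j : ℝ) < A + 1 := by linarith
        have : j < (A : ℤ) + 1 := by exact_mod_cast this
        omega
      have hi : (((j + A).toNat : ℕ) : ℤ) = j + A := Int.toNat_of_nonneg hj2
      have hi' : (((j + A).toNat : ℕ) : ℝ) = (j : ℝ) + A := by exact_mod_cast hi
      rw [chain_one _ p (j + A).toNat]
      · rw [if_pos (by omega)]
        show evp A W (j + A).toNat (p.1, p.2 - c (j + A).toNat) = We p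
        rw [hval]
        have h1 : p.2 - c (j + A).toNat = 2 * (p.2 / 2 - j) := by
          simp only [c, hi']
          ring
        rw [h1]
        rfl
      · intro i hi2 x
        show evp A W i (x, p.2 - c i) = 0
        rw [hval]
        have h2 : (i : ℤ) ≠ j + A := by omega
        have h3 : (1 : ℝ) ≤ |(j : ℝ) + A - i| := by
          have : (1 : ℤ) ≤ |j + A - i| := Int.one_le_abs (by omega)
          exact_mod_cast this
        have h4 : the0 (p.2 - c i) = 0 := by
          refine hthe.2.2.2 _ ?_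
          have h5 : p.2 - c i = 2 * ((j : ℝ) + A - i) + 2 * (p.2 / 2 - j) := by
            simp only [c]
            ring
          rw [h5]
          rcases le_abs.1 h3 with h6 | h6
          · refine le_trans ?_ (le_abs_self _)
            linarith
          · refine le_trans ?_ (neg_le_abs _)
            linarith
        rw [h4, zero_mul]
  rw [hWe] at hgWG
  -- the odd part
  let Wo : P2 → ℝ := Pool.Agent.W133.DQ.star (nv We) W
  set gO : Equiv.Perm P2 := gW⁻¹ * P with hgO
  have hgOG : IsG gO Wo := isG_mul (hNV.1 gW We hgWG) hPW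
  have hgOL : gO ∈ LP := LP.mul_mem (LP.inv_mem hgW) hP
  have hLP : L P = L gW + L gO := by
    rw [← hL _ (LP_le_DC hgW) _ (LP_le_DC hgOL), hgO, mul_inv_cancel_left]
  have hWo1 : ∀ y, the y = 1 → ∀ x, Wo (x, y) = 0 := by
    intro y hy x
    have h1 : gO (x, y) = (x, y) := by
      rw [hgO, Equiv.Perm.mul_apply, Equiv.Perm.inv_eq_iff_eq, hPW, hgWG]
      simp only [We, hy, one_mul]
    rw [isG_disp hgOG (x, y), h1, sub_self]
  have hWo2 : ∀ y, (A : ℝ) ≤ |y| → ∀ x, Wo (x, y) = 0 := by
    intro y hy x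
    have h0 : ∀ x, W (x, y) = 0 := fun x => hs (x, y) (Or.inr hy)
    have h1 : gO (x, y) = (x, y) := by
      rw [hgO, Equiv.Perm.mul_apply, Equiv.Perm.inv_eq_iff_eq, hPW, hgWG]
      simp only [We, h0, mul_zero]
    rw [isG_disp hgOG (x, y), h1, sub_self]
  -- the odd pieces
  have hcut : ∀ i : ℕ, ∃ g ∈ LP, IsG g (fun p => kap1 (p.2 - (c i + 1)) * Wo p) := by
    intro i
    refine cut hgOL hgOG (fun y => kap1 (y - (c i + 1))) (hkap.1.comp (contDiff_id.sub contDiff_const)) ?_
    intro y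
    by_cases h1 : |y - (c i + 1)| ≤ 7 / 10
    · exact Or.inl (hkap.2.2.1 _ h1)
    by_cases h2 : 9 / 10 ≤ |y - (c i + 1)|
    · exact Or.inr (Or.inl (hkap.2.2.2 _ h2))
    right; right
    push Not at h1 h2
    apply hWo1
    rcases lt_abs.1 h1 with h3 | h3
    · refine the_eq_one hCUT y ((i : ℤ) - A + 1) ?_
      rw [abs_lt] at h2
      rw [abs_le]
      push_cast
      simp only [c] at h2 h3
      constructor <;> linarith
    · refine the_eq_one hCUT y ((i : ℤ) - A) ?_
      rw [abs_lt] at h2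
      rw [abs_le]
      push_cast
      simp only [c] at h2 h3
      constructor <;> linarith
  choose O hO hOG using hcut
  have hCO := fun i => (hCONJL L hL).1 (O i) (LP_le_DC (hO i)) (0, -(c i + 1))
  have hO' := fun i => conj_tr (hOG i) (-(c i + 1)) (hCO i).1
  have hO'G : ∀ i, IsG (tr (0, -(c i + 1)) * O i * (tr (0, -(c i + 1)))⁻¹) (odp A W i) := by
    intro i
    have h1 : odp A W i = fun p : P2 => (fun p : P2 => kap1 (p.2 - (c i + 1)) * Wo p)
        (p.1, p.2 - -(c i + 1)) := by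
      funext p
      simp only [odp]
      have e1 : p.2 - -(c i + 1) = p.2 + (2 * ((i : ℝ) - A) + 1) := by simp only [c]; ring
      have e2 : p.2 + (2 * ((i : ℝ) - A) + 1) - (c i + 1) = p.2 := by simp only [c]; ring
      rw [e1, e2]
    rw [h1]
    exact (hO' i).2
  obtain ⟨gO1, hgO1, hgO1G, hLgO1⟩ := chain_prod hL (odp A W) _ (fun i => (hO' i).1) hO'G M
  obtain ⟨gO2, hgO2, hgO2G, hLgO2⟩ := chain_prod hL _ O hO hOG M
  have hLO : L gO2 = L gO1 := by
    rw [hLgO2, hLgO1]
    exact Finset.sum_congr rfl fun i _ => (hCO i).2.symm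
  have hWo : chain (fun i p => kap1 (p.2 - (c i + 1)) * Wo p) M = Wo := by
    funext p
    by_cases hp : (A : ℝ) ≤ |p.2|
    · have h0 : ∀ x, Wo (x, p.2) = 0 := hWo2 p.2 hp
      rw [chain_one _ p 0 (fun i _ x => by simp only [h0 x, mul_zero])]
      have h1 : Wo p = 0 := h0 p.1
      rw [if_pos (by omega)]
      simp only [h1, mul_zero]
    · push Not at hp
      set j : ℤ := ⌊p.2 / 2⌋ with hj
      have hj1 : (j : ℝ) ≤ p.2 / 2 := Int.floor_le _
      have hj1' : p.2 / 2 < (j : ℝ) + 1 := Int.lt_floor_add_one _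
      rw [abs_lt] at hp
      have hj2 : (0 : ℤ) ≤ j + A := by
        have : (-1 : ℝ) < (j : ℝ) + A := by linarith
        have : (-1 : ℤ) < j + A := by exact_mod_cast this
        omega
      have hj3 : j + A ≤ 2 * (A : ℤ) := by
        have : (j : ℝ) < A + 1 := by linarith
        have : j < (A : ℤ) + 1 := by exact_mod_cast this
        omega
      have hi : (((j + A).toNat : ℕ) : ℤ) = j + A := Int.toNat_of_nonneg hj2
      have hi' : (((j + A).toNat : ℕ) : ℝ) = (j : ℝ) + A := by exact_mod_cast hi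
      rw [chain_one _ p (j + A).toNat]
      · rw [if_pos (by omega)]
        have h1 : p.2 - (c (j + A).toNat + 1) = p.2 - (2 * j + 1) := by
          simp only [c, hi']
          ring
        show kap1 (p.2 - (c (j + A).toNat + 1)) * Wo p = Wo p
        rw [h1]
        by_cases h2 : |p.2 - (2 * (j : ℝ) + 1)| ≤ 7 / 10
        · have : kap1 (p.2 - (2 * (j : ℝ) + 1)) = 1 := hkap.2.2.1 _ h2
          rw [this, one_mul]
        · push Not at h2
          have h3 : Wo p = 0 := by
            refine hWo1 p.2 ?_ p.1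
            rcases lt_abs.1 h2 with h3 | h3
            · refine the_eq_one hCUT p.2 (j + 1) ?_
              rw [abs_le]
              push_cast
              constructor <;> linarith
            · refine the_eq_one hCUT p.2 j ?_
              rw [abs_le]
              constructor <;> linarith
          rw [h3, mul_zero]
      · intro i hi2 x
        have h2 : (i : ℤ) ≠ j + A := by omega
        have h4 : kap1 (p.2 - (c i + 1)) = 0 := by
          refine hkap.2.2.2 _ ?_
          rcases lt_or_gt_of_ne h2 with h3 | h3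
          · have h5 : (i : ℝ) + 1 ≤ (j : ℝ) + A := by exact_mod_cast h3
            refine le_trans ?_ (le_abs_self _)
            simp only [c]
            linarith
          · have h5 : (j : ℝ) + A + 1 ≤ (i : ℝ) := by exact_mod_cast h3
            refine le_trans ?_ (neg_le_abs _)
            simp only [c]
            linarith
        simp only [h4, zero_mul]
  rw [hWo] at hgO2G
  have e1 : gO2 = gO := isG_unique hgO2G hgOG
  have e2 : Q = gE * gO1 := isG_unique hQW (isG_mul hgEG hgO1G)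
  rw [hLP, hLE, ← e1, hLO, e2, hL _ (LP_le_DC hgE) _ (LP_le_DC hgO1)]

end Pool.Agent.W462.DQ
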